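import Pool.Agent.H12S.Ord

/-!
# The count of closed words modulo 4 (helper12)
-/

set_option autoImplicit false

namespace Pool.Agent.H12S

/-- the generators as permutations; the generator number `s ≥ 1` has the special symbol `3 - s` -/
def P (ω : ℕ → Fin 3) (s : Fin 4) : Equiv.Perm (List Bool) :=
  if s = 0 then A else if s = 1 then X 2 ω else if s = 2 then X 1 ω else X 0 ω

theorem P0 (ω : ℕ → Fin 3) : P ω 0 = A := rfl
theorem P1 (ω : ℕ → Fin 3) : P ω 1 = X 2 ω := rfl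
theorem P2 (ω : ℕ → Fin 3) : P ω 2 = X 1 ω := rfl
theorem P3 (ω : ℕ → Fin 3) : P ω 3 = X 0 ω := rfl

theorem XX_pow (q r : Fin 3) (ω : ℕ → Fin 3) (m : ℕ) : (X q ω * X r ω) ^ (2 ^ (m + 1)) = 1 := by
  have h1 : (X q ω * X r ω) ^ 2 = 1 := by
    calc (X q ω * X r ω) ^ 2 = (X q ω * X r ω) * (X q ω * X r ω) := pow_two _
      _ = (X q ω * X r ω) * (X r ω * X q ω) := congrArg _ (X_comm q r ω)
      _ = X q ω * ((X r ω * X r ω) * X q ω) := by simp only [mul_assoc]
      _ = 1 := by rw [X_mul_X, one_mul, X_mul_X]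
  rw [pow_succ', pow_mul, h1, one_pow]

theorem XA_pow (q : Fin 3) (ω : ℕ → Fin 3) (k : ℕ) :
    (X q ω * A) ^ k = 1 ↔ (A * X q ω) ^ k = 1 := by
  have h2 : X q ω * A = A * (A * X q ω) * A⁻¹ := by
    rw [← mul_assoc, A_mul_A, one_mul, inv_eq_of_mul_eq_one_right A_mul_A]
  rw [h2, conj_pow]
  constructor
  · intro h
    rw [mul_inv_eq_one] at h
    exact mul_eq_left.1 h
  · intro h
    rw [h, mul_one, mul_inv_cancel]

/-- the number of symbols among the first `m` ones -/
def symbols (ω : ℕ → Fin 3) (m : ℕ) : ℕ := ((Finset.range m).image ω).card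

open scoped Classical in
theorem symbols_eq (ω : ℕ → Fin 3) (m : ℕ) : symbols ω m =
    (if ∃ i, i < m ∧ ω i = 0 then 1 else 0) + (if ∃ i, i < m ∧ ω i = 1 then 1 else 0) +
      (if ∃ i, i < m ∧ ω i = 2 then 1 else 0) := by
  have h1 : (Finset.range m).image ω = Finset.univ.filter (fun q => ∃ i, i < m ∧ ω i = q) := by
    ext q
    simp
  unfold symbols
  rw [h1, Finset.card_filter, Fin.sum_univ_three]

open scoped Classical in
theorem count_pairs (ω : ℕ → Fin 3) (hω : NC ω) (m : ℕ) :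
    Nat.card {v : List (Fin 4) // v.length = 2 ^ 1 ∧ (v.map (P ω)).prod ^ (2 ^ (m + 1)) = 1} =
      10 + 2 * symbols ω m := by
  have h1 : Nat.card {v : List (Fin 4) // v.length = 2 ^ 1 ∧
      (v.map (P ω)).prod ^ (2 ^ (m + 1)) = 1} =
      Nat.card {x : Fin 4 × Fin 4 // (P ω x.1 * P ω x.2) ^ (2 ^ (m + 1)) = 1} := by
    refine Nat.card_congr ⟨fun v => ⟨(v.1.getD 0 0, v.1.getD 1 0), ?_⟩, fun x =>
      ⟨[x.1.1, x.1.2], rfl, ?_⟩, fun v => ?_, fun x => ?_⟩
    · obtain ⟨v, h1, h2⟩ := v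
      obtain ⟨s, t, rfl⟩ := List.length_eq_two.1 h1
      simpa using h2
    · have := x.2
      simpa using this
    · obtain ⟨v, h1, h2⟩ := v
      obtain ⟨s, t, rfl⟩ := List.length_eq_two.1 h1
      rfl
    · rfl
  have hAA : (A * A) ^ (2 ^ (m + 1)) = 1 := by rw [A_mul_A, one_pow]
  rw [h1, Nat.card_eq_fintype_card, Fintype.card_subtype, Finset.card_filter,
    Fintype.sum_prod_type, symbols_eq]
  simp only [Fin.sum_univ_four, P0, P1, P2, P3, XX_pow, XA_pow, hAA, if_true,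
    order_iff _ m ω hω]
  ring

theorem symbols_zero (ω : ℕ → Fin 3) : symbols ω 0 = 0 := rfl

theorem symbols_succ (ω : ℕ → Fin 3) (m : ℕ) :
    symbols ω (m + 1) = symbols ω m ∨ symbols ω (m + 1) = symbols ω m + 1 := by
  unfold symbols
  rw [Finset.range_add_one, Finset.image_insert]
  by_cases h : ω m ∈ (Finset.range m).image ω
  · left
    rw [Finset.insert_eq_self.2 h]
  · right
    rw [Finset.card_insert_of_notMem h]

theorem symbols_le (ω : ℕ → Fin 3) (m : ℕ) : symbols ω m ≤ 3 :=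
  (Finset.card_le_univ _).trans (by simp)

theorem symbols_congr (ω ω' : ℕ → Fin 3)
    (h : ∀ m, 2 + 2 * symbols ω m ≡ 2 + 2 * symbols ω' m [MOD 4]) :
    ∀ m, symbols ω m = symbols ω' m := by
  intro m
  induction m with
  | zero => rfl
  | succ m ih =>
    have h1 := h (m + 1)
    unfold Nat.ModEq at h1
    rcases symbols_succ ω m with h2 | h2 <;> rcases symbols_succ ω' m with h3 | h3 <;> omega

end Pool.Agent.H12S
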