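import Mathlib

/-!
# Closed words of length `2^(i+j)` modulo `2^(i+1)` (helper12)
-/

set_option autoImplicit false

namespace Pool.Agent.H12S

/-- a permutation of 2-power order whose power `2^i` has no fixed point -/
theorem dvd_card {Y : Type} [Finite Y] (σ : Equiv.Perm Y) (N i : ℕ) (hN : σ ^ (2 ^ N) = 1)
    (h : ∀ y, (σ ^ (2 ^ i)) y ≠ y) : 2 ^ (i + 1) ∣ Nat.card Y := by
  classical
  haveI := Fintype.ofFinite Y
  rw [Nat.card_congr (MulAction.selfEquivSigmaOrbits' (Subgroup.zpowers σ) Y), Nat.card_sigma]
  apply Finset.dvd_sum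
  intro ω _
  induction ω using Quotient.inductionOn with
  | h y =>
    have h1 : Nat.card (MulAction.orbitRel.Quotient.orbit
        (⟦y⟧ : MulAction.orbitRel.Quotient (Subgroup.zpowers σ) Y)) =
        (MulAction.stabilizer (Subgroup.zpowers σ) y).index := by
      rw [MulAction.index_stabilizer]
      rfl
    rw [h1]
    have h2 : (MulAction.stabilizer (Subgroup.zpowers σ) y).index ∣ 2 ^ N := by
      refine (Subgroup.index_dvd_card _).trans ?_
      rw [Nat.card_zpowers]
      exact orderOf_dvd_of_pow_eq_one hN
    obtain ⟨a, -, ha⟩ := (Nat.dvd_prime_pow Nat.prime_two).1 h2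
    rw [ha]
    apply pow_dvd_pow
    by_contra hcon
    push Not at hcon
    apply h y
    have h3 := Subgroup.pow_index_mem (MulAction.stabilizer (Subgroup.zpowers σ) y)
      (⟨σ, Subgroup.mem_zpowers σ⟩ : Subgroup.zpowers σ)
    rw [ha] at h3
    have h4 : ((⟨σ, Subgroup.mem_zpowers σ⟩ : Subgroup.zpowers σ) ^ (2 ^ i)) ∈
        MulAction.stabilizer (Subgroup.zpowers σ) y := by
      obtain ⟨b, rfl⟩ : ∃ b, i = a + b := ⟨i - a, by omega⟩
      rw [pow_add, pow_mul]
      exact Subgroup.pow_mem _ h3 _
    exact MulAction.mem_stabilizer_iff.1 h4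

section
variable {ι : Type}

theorem flatten_comm (v : List ι) (q : ℕ) :
    (List.replicate q v).flatten ++ v = v ++ (List.replicate q v).flatten := by
  induction q with
  | zero => simp
  | succ q ih =>
    rw [List.replicate_succ, List.flatten_cons, List.append_assoc, ih]

theorem of_comm (p : List ι) : ∀ (q : ℕ) (r : List ι), r.length = q * p.length →
    p ++ r = r ++ p → r = (List.replicate q p).flatten := by
  intro q
  induction q with
  | zero =>
    intro r h1 _
    rw [zero_mul] at h1
    rw [List.eq_nil_of_length_eq_zero h1]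
    rfl
  | succ q ih =>
    intro r h1 h2
    have h3 : p <+: r := by
      apply List.prefix_of_prefix_length_le (l₃ := p ++ r) (List.prefix_append _ _)
      · rw [h2]
        exact List.prefix_append _ _
      · rw [h1]
        nlinarith
    obtain ⟨r', rfl⟩ := h3
    rw [List.replicate_succ, List.flatten_cons]
    congr 1
    apply ih
    · rw [List.length_append] at h1
      have : (q + 1) * p.length = q * p.length + p.length := by ring
      omega
    · rw [List.append_assoc] at h2
      exact List.append_cancel_left h2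

theorem rot_flat (v : List ι) {q : ℕ} (hq : 0 < q) :
    ((List.replicate q v).flatten).rotate v.length = (List.replicate q v).flatten := by
  obtain ⟨q, rfl⟩ : ∃ q', q = q' + 1 := ⟨q - 1, by omega⟩
  rw [List.replicate_succ, List.flatten_cons, List.rotate_append_length_eq, flatten_comm]

theorem take_flat (v : List ι) {q : ℕ} (hq : 0 < q) :
    ((List.replicate q v).flatten).take v.length = v := by
  obtain ⟨q, rfl⟩ : ∃ q', q = q' + 1 := ⟨q - 1, by omega⟩
  rw [List.replicate_succ, List.flatten_cons, List.take_left']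
  rfl

variable {G : Type} [Group G] (g : ι → G)

theorem prod_flatten (v : List ι) (q : ℕ) :
    (((List.replicate q v).flatten).map g).prod = (v.map g).prod ^ q := by
  induction q with
  | zero => simp
  | succ q ih =>
    rw [List.replicate_succ, List.flatten_cons, List.map_append, List.prod_append, ih, pow_succ']

theorem prod_rotate (u : List ι) (k : ℕ) :
    ((u.rotate k).map g).prod = 1 ↔ (u.map g).prod = 1 := by
  induction k generalizing u with
  | zero => rw [List.rotate_zero]
  | succ k ih =>
    have h1 : u.rotate (k + 1) = (u.rotate 1).rotate k := by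
      rw [List.rotate_rotate, add_comm]
    rw [h1, ih]
    cases u with
    | nil => simp
    | cons x t =>
      simp only [List.rotate_cons_succ, List.rotate_zero, List.map_append, List.prod_append,
        List.map_cons, List.map_nil, List.prod_cons, List.prod_nil, mul_one]
      rw [mul_eq_one_iff_eq_inv, mul_eq_one_iff_inv_eq, eq_comm]

theorem congr_group [Finite ι] (i j : ℕ) :
    Nat.card {u : List ι // u.length = 2 ^ (i + j) ∧ (u.map g).prod = 1} ≡
      Nat.card {v : List ι // v.length = 2 ^ i ∧ (v.map g).prod ^ (2 ^ j) = 1}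
      [MOD 2 ^ (i + 1)] := by
  classical
  obtain ⟨n, hn⟩ : ∃ n, n = 2 ^ (i + j) := ⟨_, rfl⟩
  have hn0 : 0 < n := by rw [hn]; positivity
  have hfin : {u : List ι | u.length = n}.Finite := List.finite_length_eq ι n
  rw [← hn]
  -- the two parts
  have hY : 2 ^ (i + 1) ∣ Nat.card {u : List ι // (u.length = n ∧ (u.map g).prod = 1) ∧
      ¬ u.rotate (2 ^ i) = u} := by
    haveI : Finite {u : List ι // (u.length = n ∧ (u.map g).prod = 1) ∧
        ¬ u.rotate (2 ^ i) = u} := by
      apply Set.Finite.subset hfin
      intro u hu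
      exact hu.1.1
    have hrot : ∀ (k : ℕ) (u : List ι), ((u.length = n ∧ (u.map g).prod = 1) ∧
        ¬ u.rotate (2 ^ i) = u) → (((u.rotate k).length = n ∧ ((u.rotate k).map g).prod = 1) ∧
        ¬ (u.rotate k).rotate (2 ^ i) = (u.rotate k)) := by
      intro k u hu
      refine ⟨⟨by rw [List.length_rotate]; exact hu.1.1, (prod_rotate g u k).2 hu.1.2⟩, ?_⟩
      intro h
      apply hu.2
      rw [List.rotate_rotate, add_comm, ← List.rotate_rotate] at h
      exact List.rotate_injective k h
    obtain ⟨σ, hσ⟩ : ∃ σ : Equiv.Perm {u : List ι // (u.length = n ∧ (u.map g).prod = 1) ∧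
        ¬ u.rotate (2 ^ i) = u}, ∀ u, (σ u).1 = u.1.rotate 1 := by
      refine ⟨⟨fun u => ⟨u.1.rotate 1, hrot 1 _ u.2⟩, fun u => ⟨u.1.rotate (n - 1),
        hrot (n - 1) _ u.2⟩, fun u => ?_, fun u => ?_⟩, fun u => rfl⟩
      · apply Subtype.ext
        change (u.1.rotate 1).rotate (n - 1) = u.1
        rw [List.rotate_rotate]
        have h1 : 1 + (n - 1) = u.1.length := by rw [u.2.1.1]; omega
        rw [h1, List.rotate_length]
      · apply Subtype.ext
        change (u.1.rotate (n - 1)).rotate 1 = u.1
        rw [List.rotate_rotate]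
        have h1 : (n - 1) + 1 = u.1.length := by rw [u.2.1.1]; omega
        rw [h1, List.rotate_length]
    have hpow : ∀ (k : ℕ) u, ((σ ^ k) u).1 = u.1.rotate k := by
      intro k
      induction k with
      | zero => intro u; simp
      | succ k ih =>
        intro u
        rw [pow_succ, Equiv.Perm.mul_apply, ih, hσ, List.rotate_rotate, add_comm]
    refine dvd_card σ (i + j) i ?_ ?_
    · ext1 u
      apply Subtype.ext
      have e : u.1.rotate u.1.length = u.1 := List.rotate_length _
      rw [u.2.1.1] at e
      rw [hpow, ← hn, Equiv.Perm.one_apply]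
      exact e
    · intro u h
      apply u.2.2
      rw [← hpow, h]
  have hF : Nat.card {u : List ι // (u.length = n ∧ (u.map g).prod = 1) ∧
      u.rotate (2 ^ i) = u} =
      Nat.card {v : List ι // v.length = 2 ^ i ∧ (v.map g).prod ^ (2 ^ j) = 1} := by
    have hij : n = 2 ^ j * 2 ^ i := by rw [hn, pow_add, mul_comm]
    have hj0 : 0 < 2 ^ j := by positivity
    have hle : 2 ^ i ≤ n := by rw [hij]; exact Nat.le_mul_of_pos_left _ hj0
    have key : ∀ u : List ι, u.length = n → u.rotate (2 ^ i) = u →
        u = (List.replicate (2 ^ j) (u.take (2 ^ i))).flatten := by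
      intro u h1 h2
      have h3 : (u.take (2 ^ i)).length = 2 ^ i := by rw [List.length_take]; omega
      have h4 : u.take (2 ^ i) ++ u.drop (2 ^ i) = u := List.take_append_drop _ _
      have h5 : u.drop (2 ^ i) ++ u.take (2 ^ i) = u := by
        rw [← List.rotate_eq_drop_append_take (by omega)]
        exact h2
      have h6 := of_comm (u.take (2 ^ i)) (2 ^ j - 1) (u.drop (2 ^ i)) (by
        rw [List.length_drop, h3, h1, hij, Nat.sub_mul, one_mul]) (by rw [h4, h5])
      obtain ⟨q, hq⟩ : ∃ q, 2 ^ j = q + 1 := ⟨2 ^ j - 1, by omega⟩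
      rw [hq, List.replicate_succ, List.flatten_cons]
      rw [hq, Nat.add_sub_cancel] at h6
      rw [← h6, h4]
    refine Nat.card_congr ⟨fun u => ⟨u.1.take (2 ^ i), ?_, ?_⟩,
      fun v => ⟨(List.replicate (2 ^ j) v.1).flatten, ⟨?_, ?_⟩, ?_⟩, fun u => ?_, fun v => ?_⟩
    · rw [List.length_take, u.2.1.1]
      omega
    · rw [← prod_flatten, ← key u.1 u.2.1.1 u.2.2]
      exact u.2.1.2
    · rw [List.length_flatten, List.map_replicate, List.sum_replicate, v.2.1, hij, smul_eq_mul]
    · rw [prod_flatten]
      exact v.2.2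
    · have h1 := rot_flat v.1 hj0
      rwa [v.2.1] at h1
    · apply Subtype.ext
      exact (key u.1 u.2.1.1 u.2.2).symm
    · apply Subtype.ext
      have h1 := take_flat v.1 hj0
      rwa [v.2.1] at h1
  have hsplit : Nat.card {u : List ι // u.length = n ∧ (u.map g).prod = 1} =
      Nat.card {u : List ι // (u.length = n ∧ (u.map g).prod = 1) ∧ u.rotate (2 ^ i) = u} +
      Nat.card {u : List ι // (u.length = n ∧ (u.map g).prod = 1) ∧
        ¬ u.rotate (2 ^ i) = u} := by
    have hs : {u : List ι | u.length = n ∧ (u.map g).prod = 1} =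
        {u : List ι | (u.length = n ∧ (u.map g).prod = 1) ∧ u.rotate (2 ^ i) = u} ∪
        {u : List ι | (u.length = n ∧ (u.map g).prod = 1) ∧ ¬ u.rotate (2 ^ i) = u} := by
      ext u
      simp only [Set.mem_union, Set.mem_ofPred_eq]
      tauto
    have hd : Disjoint {u : List ι | (u.length = n ∧ (u.map g).prod = 1) ∧
        u.rotate (2 ^ i) = u}
        {u : List ι | (u.length = n ∧ (u.map g).prod = 1) ∧ ¬ u.rotate (2 ^ i) = u} := by
      rw [Set.disjoint_left]
      intro u h1 h2
      exact h2.2 h1.2
    have h1 := Set.ncard_union_eq hd (hfin.subset fun u hu => hu.1.1)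
      (hfin.subset fun u hu => hu.1.1)
    rw [← hs] at h1
    exact h1
  rw [hsplit, hF]
  have := (Nat.modEq_zero_iff_dvd.2 hY)
  have h2 := Nat.ModEq.add_left (Nat.card {v : List ι // v.length = 2 ^ i ∧
    (v.map g).prod ^ (2 ^ j) = 1}) this
  rwa [add_zero] at h2

end

end Pool.Agent.H12S
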