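import Pool.Agent.H12S.Cyc

/-!
# Orders of the products `a x` in the groups `G_ω` (helper12)
-/

set_option autoImplicit false

namespace Pool.Agent.H12S

/-- flip the first bit -/
def fl : List Bool → List Bool
  | [] => []
  | b :: t => (!b) :: t

/-- the generator whose special symbol is `q` -/
def xx (q : Fin 3) : (ℕ → Fin 3) → List Bool → List Bool
  | _, [] => []
  | ω, true :: t => true :: xx q (fun n => ω (n + 1)) t
  | ω, false :: t => false :: (if ω 0 = q then t else fl t)

theorem fl_fl (v : List Bool) : fl (fl v) = v := by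
  cases v with
  | nil => rfl
  | cons b t => simp [fl]

theorem xx_nil (q : Fin 3) (ω : ℕ → Fin 3) : xx q ω [] = [] := by simp [xx]

theorem xx_true (q : Fin 3) (ω : ℕ → Fin 3) (t : List Bool) :
    xx q ω (true :: t) = true :: xx q (fun n => ω (n + 1)) t := by simp [xx]

theorem xx_false (q : Fin 3) (ω : ℕ → Fin 3) (t : List Bool) :
    xx q ω (false :: t) = false :: (if ω 0 = q then t else fl t) := by simp [xx]

theorem xx_xx (q : Fin 3) (v : List Bool) : ∀ ω : ℕ → Fin 3, xx q ω (xx q ω v) = v := by
  induction v with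
  | nil => intro ω; simp only [xx_nil]
  | cons b t ih =>
    intro ω
    cases b with
    | true => rw [xx_true, xx_true, ih]
    | false =>
      rw [xx_false, xx_false]
      by_cases h : ω 0 = q
      · simp only [if_pos h]
      · simp only [if_neg h, fl_fl]

theorem xx_comm (q r : Fin 3) (v : List Bool) : ∀ ω : ℕ → Fin 3,
    xx q ω (xx r ω v) = xx r ω (xx q ω v) := by
  induction v with
  | nil => intro ω; simp only [xx_nil]
  | cons b t ih =>
    intro ω
    cases b with
    | true => rw [xx_true, xx_true, xx_true, xx_true, ih]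
    | false =>
      rw [xx_false, xx_false, xx_false, xx_false]
      by_cases h : ω 0 = q
      · simp only [if_pos h]
      · by_cases h' : ω 0 = r
        · simp only [if_pos h']
        · simp only [if_neg h, if_neg h']

/-- `a` as a permutation -/
def A : Equiv.Perm (List Bool) := ⟨fl, fl, fl_fl, fl_fl⟩

/-- `x_q` as a permutation -/
def X (q : Fin 3) (ω : ℕ → Fin 3) : Equiv.Perm (List Bool) :=
  ⟨xx q ω, xx q ω, fun v => xx_xx q v ω, fun v => xx_xx q v ω⟩

theorem A_apply (v : List Bool) : A v = fl v := rfl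

theorem X_apply (q : Fin 3) (ω : ℕ → Fin 3) (v : List Bool) : X q ω v = xx q ω v := rfl

theorem A_mul_A : A * A = 1 := Equiv.ext fun v => fl_fl v

theorem X_mul_X (q : Fin 3) (ω : ℕ → Fin 3) : X q ω * X q ω = 1 := Equiv.ext fun v => xx_xx q v ω

theorem X_comm (q r : Fin 3) (ω : ℕ → Fin 3) : X q ω * X r ω = X r ω * X q ω :=
  Equiv.ext fun v => xx_comm q r v ω

/-- the section of `x_q` at the vertex `0` -/
def S (q : Fin 3) (ω : ℕ → Fin 3) : Equiv.Perm (List Bool) := if ω 0 = q then 1 else A

theorem S_apply (q : Fin 3) (ω : ℕ → Fin 3) (t : List Bool) :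
    S q ω t = if ω 0 = q then t else fl t := by
  unfold S
  split_ifs <;> rfl

theorem sq_false (q : Fin 3) (ω : ℕ → Fin 3) (k : ℕ) (t : List Bool) :
    ((A * X q ω) ^ (2 * k)) (false :: t) =
      false :: ((X q (fun n => ω (n + 1)) * S q ω) ^ k) t := by
  induction k generalizing t with
  | zero => simp
  | succ k ih =>
    have h1 : 2 * (k + 1) = 2 * k + 1 + 1 := by ring
    rw [h1, pow_succ, pow_succ, Equiv.Perm.mul_apply, Equiv.Perm.mul_apply]
    have h2 : (A * X q ω) ((A * X q ω) (false :: t)) =
        false :: (X q (fun n => ω (n + 1)) * S q ω) t := by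
      simp only [Equiv.Perm.mul_apply, A_apply, X_apply, xx_false, fl, Bool.not_false, xx_true,
        Bool.not_true, S_apply]
    rw [h2, ih, pow_succ (X q (fun n => ω (n + 1)) * S q ω) k]
    rfl

theorem sq_true (q : Fin 3) (ω : ℕ → Fin 3) (k : ℕ) (t : List Bool) :
    ((A * X q ω) ^ (2 * k)) (true :: t) =
      true :: ((S q ω * X q (fun n => ω (n + 1))) ^ k) t := by
  induction k generalizing t with
  | zero => simp
  | succ k ih =>
    have h1 : 2 * (k + 1) = 2 * k + 1 + 1 := by ring
    rw [h1, pow_succ, pow_succ, Equiv.Perm.mul_apply, Equiv.Perm.mul_apply]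
    have h2 : (A * X q ω) ((A * X q ω) (true :: t)) =
        true :: (S q ω * X q (fun n => ω (n + 1))) t := by
      simp only [Equiv.Perm.mul_apply, A_apply, X_apply, xx_false, fl, Bool.not_false, xx_true,
        Bool.not_true, S_apply]
    rw [h2, ih, pow_succ (S q ω * X q (fun n => ω (n + 1))) k]
    rfl

theorem pow_nil (q : Fin 3) (ω : ℕ → Fin 3) (k : ℕ) : ((A * X q ω) ^ k) [] = [] := by
  induction k with
  | zero => rfl
  | succ k ih =>
    rw [pow_succ, Equiv.Perm.mul_apply]
    have h : (A * X q ω) [] = [] := by simp [A_apply, X_apply, xx_nil, fl]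
    rw [h, ih]

theorem pow_eq_one_iff (q : Fin 3) (ω : ℕ → Fin 3) (k : ℕ) :
    (A * X q ω) ^ (2 * k) = 1 ↔ (S q ω * X q (fun n => ω (n + 1))) ^ k = 1 := by
  constructor
  · intro h
    ext1 t
    have h1 := congrArg (fun e : Equiv.Perm (List Bool) => e (true :: t)) h
    simp only [sq_true, Equiv.Perm.one_apply] at h1
    exact (List.cons.inj h1).2
  · intro h
    have h' : (X q (fun n => ω (n + 1)) * S q ω) ^ k = 1 := by
      have h2 : X q (fun n => ω (n + 1)) * S q ω =
          (S q ω)⁻¹ * (S q ω * X q (fun n => ω (n + 1))) * S q ω := by group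
      have h3 : (S q ω)⁻¹ * (S q ω * X q (fun n => ω (n + 1))) * S q ω =
          (S q ω)⁻¹ * (S q ω * X q (fun n => ω (n + 1))) * (S q ω)⁻¹⁻¹ := by rw [inv_inv]
      rw [h2, h3, conj_pow, h, mul_one, mul_inv_cancel]
    ext1 v
    cases v with
    | nil => rw [pow_nil]; rfl
    | cons b t =>
      cases b with
      | true => rw [sq_true, h]; rfl
      | false => rw [sq_false, h']; rfl

/-- `ω` is not eventually constant -/
def NC (ω : ℕ → Fin 3) : Prop := ∀ (n : ℕ) (q : Fin 3), ∃ i, n ≤ i ∧ ω i ≠ q

theorem NC_shift {ω : ℕ → Fin 3} (h : NC ω) : NC (fun n => ω (n + 1)) := by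
  intro n q
  obtain ⟨i, hi, hq⟩ := h (n + 1) q
  exact ⟨i - 1, by omega, by
    have h1 : i - 1 + 1 = i := by omega
    change ω (i - 1 + 1) ≠ q
    rw [h1]
    exact hq⟩

theorem X_ne_one_aux (q : Fin 3) (i : ℕ) : ∀ ω : ℕ → Fin 3, ω i ≠ q → X q ω ≠ 1 := by
  induction i with
  | zero =>
    intro ω h h'
    have h1 := congrArg (fun e : Equiv.Perm (List Bool) => e [false, false]) h'
    simp only [X_apply, xx_false, if_neg h, fl, Equiv.Perm.one_apply] at h1
    simp at h1
  | succ i ih =>
    intro ω h h'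
    apply ih (fun n => ω (n + 1)) h
    ext1 t
    have h1 := congrArg (fun e : Equiv.Perm (List Bool) => e (true :: t)) h'
    simp only [X_apply, xx_true, Equiv.Perm.one_apply] at h1
    exact (List.cons.inj h1).2

theorem order_iff (q : Fin 3) (m : ℕ) : ∀ ω : ℕ → Fin 3, NC ω →
    ((A * X q ω) ^ (2 ^ (m + 1)) = 1 ↔ ∃ i, i < m ∧ ω i = q) := by
  induction m with
  | zero =>
    intro ω hω
    have h1 : 2 ^ (0 + 1) = 2 * 1 := by norm_num
    rw [h1, pow_eq_one_iff, pow_one]
    constructor
    · intro h
      exfalso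
      unfold S at h
      split_ifs at h with h0
      · rw [one_mul] at h
        obtain ⟨i, -, hi⟩ := NC_shift hω 0 q
        exact X_ne_one_aux q i _ hi h
      · have h2 := congrArg (fun e : Equiv.Perm (List Bool) => e [true]) h
        simp only [Equiv.Perm.mul_apply, A_apply, X_apply, xx_true, xx_nil, fl,
          Equiv.Perm.one_apply] at h2
        simp at h2
    · rintro ⟨i, hi, -⟩
      omega
  | succ m ih =>
    intro ω hω
    have h1 : 2 ^ (m + 1 + 1) = 2 * 2 ^ (m + 1) := by ring
    rw [h1, pow_eq_one_iff]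
    by_cases h0 : ω 0 = q
    · have h2 : S q ω = 1 := if_pos h0
      rw [h2, one_mul]
      constructor
      · intro _
        exact ⟨0, by omega, h0⟩
      · intro _
        rw [pow_succ', pow_mul, pow_two, X_mul_X, one_pow]
    · have h2 : S q ω = A := if_neg h0
      rw [h2, ih _ (NC_shift hω)]
      constructor
      · rintro ⟨i, hi, hq⟩
        exact ⟨i + 1, by omega, hq⟩
      · rintro ⟨i, hi, hq⟩
        cases i with
        | zero => exact absurd hq h0
        | succ i => exact ⟨i, by omega, hq⟩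

end Pool.Agent.H12S
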