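import Pool.Agent.H12S.Cnt

/-!
# Counting the pairs of words whose new symbols appear at the same positions (helper12)
-/

set_option autoImplicit false

namespace Pool.Agent.H12S

/-- new symbols appear at the same positions (`s`, `s'` the sets of the earlier symbols) -/
def agr : (n : ℕ) → Finset (Fin 3) → Finset (Fin 3) → (Fin n → Fin 3 × Fin 3) → Prop
  | 0, s, s', _ => s.card = s'.card
  | n + 1, s, s', p => s.card = s'.card ∧
      agr n (insert (p 0).1 s) (insert (p 0).2 s') (fun i => p i.succ)

/-- the number of agreeing pairs -/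
def cc : ℕ → ℕ → ℕ
  | 0, _ => 1
  | n + 1, d => d * d * cc n d + (3 - d) * (3 - d) * cc n (d + 1)

theorem agr_card : ∀ (n : ℕ) (s s' : Finset (Fin 3)) (p : Fin n → Fin 3 × Fin 3),
    agr n s s' p → s.card = s'.card
  | 0, _, _, _, h => h
  | _ + 1, _, _, _, h => h.1

theorem card_insert_iff (s s' : Finset (Fin 3)) (h : s.card = s'.card) (x x' : Fin 3) :
    (insert x s).card = (insert x' s').card ↔ (x ∈ s ↔ x' ∈ s') := by
  by_cases hx : x ∈ s <;> by_cases hx' : x' ∈ s'
  · simp [Finset.insert_eq_self.2 hx, Finset.insert_eq_self.2 hx', h, hx, hx']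
  · rw [Finset.insert_eq_self.2 hx, Finset.card_insert_of_notMem hx']
    exact ⟨fun h1 => by omega, fun h1 => absurd (h1.1 hx) hx'⟩
  · rw [Finset.insert_eq_self.2 hx', Finset.card_insert_of_notMem hx]
    exact ⟨fun h1 => by omega, fun h1 => absurd (h1.2 hx') hx⟩
  · rw [Finset.card_insert_of_notMem hx, Finset.card_insert_of_notMem hx', h]
    simp [hx, hx']

theorem count_agr (n : ℕ) : ∀ s s' : Finset (Fin 3), s.card = s'.card →
    Nat.card {p : Fin n → Fin 3 × Fin 3 // agr n s s' p} = cc n s.card := by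
  classical
  induction n with
  | zero =>
    intro s s' h
    have h1 : {p : Fin 0 → Fin 3 × Fin 3 // agr 0 s s' p} ≃ Unit :=
      ⟨fun _ => (), fun _ => ⟨fun i => i.elim0, h⟩, fun p => Subtype.ext (funext fun i => i.elim0),
        fun _ => rfl⟩
    rw [Nat.card_congr h1, Nat.card_unique]
    rfl
  | succ n ih =>
    intro s s' h
    have e : {p : Fin (n + 1) → Fin 3 × Fin 3 // agr (n + 1) s s' p} ≃
        Σ x : Fin 3 × Fin 3, {q : Fin n → Fin 3 × Fin 3 //
          agr n (insert x.1 s) (insert x.2 s') q} :=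
      ⟨fun p => ⟨p.1 0, ⟨fun i => p.1 i.succ, p.2.2⟩⟩,
        fun x => ⟨Fin.cons x.1 x.2.1, ⟨h, by
          simpa using x.2.2⟩⟩,
        fun p => Subtype.ext (by
          funext i
          refine Fin.cases ?_ (fun i => ?_) i
          · simp
          · simp),
        fun x => by
          obtain ⟨x, q, hq⟩ := x
          rfl⟩
    rw [Nat.card_congr e, Nat.card_sigma]
    have h2 : ∀ x : Fin 3 × Fin 3, Nat.card {q : Fin n → Fin 3 × Fin 3 //
        agr n (insert x.1 s) (insert x.2 s') q} =
        (if x.1 ∈ s then (if x.2 ∈ s' then cc n s.card else 0) else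
          (if x.2 ∈ s' then 0 else cc n (s.card + 1))) := by
      intro x
      by_cases h3 : (x.1 ∈ s ↔ x.2 ∈ s')
      · rw [ih _ _ ((card_insert_iff s s' h x.1 x.2).2 h3)]
        by_cases h4 : x.1 ∈ s
        · rw [if_pos h4, if_pos (h3.1 h4), Finset.insert_eq_self.2 h4]
        · rw [if_neg h4, if_neg (fun h5 => h4 (h3.2 h5)), Finset.card_insert_of_notMem h4]
      · have h4 : IsEmpty {q : Fin n → Fin 3 × Fin 3 //
            agr n (insert x.1 s) (insert x.2 s') q} :=
          ⟨fun q => h3 ((card_insert_iff s s' h x.1 x.2).1 (agr_card _ _ _ _ q.2))⟩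
        rw [Nat.card_of_isEmpty]
        by_cases h5 : x.1 ∈ s <;> by_cases h6 : x.2 ∈ s' <;> simp [h5, h6] at h3 ⊢
    rw [Finset.sum_congr rfl fun x _ => h2 x, Fintype.sum_prod_type]
    have h7 : ∀ (t : Finset (Fin 3)) (a b : ℕ), ∑ x : Fin 3, (if x ∈ t then a else b) =
        t.card * a + (3 - t.card) * b := by
      intro t a b
      rw [Finset.sum_ite, Finset.sum_const, Finset.sum_const, smul_eq_mul, smul_eq_mul]
      have h8 : (Finset.univ.filter (fun x => x ∈ t)) = t := by ext x; simp
      have h9 : (Finset.univ.filter (fun x => x ∉ t)) = tᶜ := by ext x; simp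
      rw [h8, h9, Finset.card_compl, Fintype.card_fin]
    have h10 : ∀ x : Fin 3, ∑ y : Fin 3, (if x ∈ s then (if y ∈ s' then cc n s.card else 0) else
          (if y ∈ s' then 0 else cc n (s.card + 1))) =
        (if x ∈ s then s'.card * cc n s.card else (3 - s'.card) * cc n (s.card + 1)) := by
      intro x
      by_cases hx : x ∈ s
      · simp only [if_pos hx]
        rw [h7, mul_zero, add_zero]
      · simp only [if_neg hx]
        rw [h7, mul_zero, zero_add]
    rw [Finset.sum_congr rfl fun x _ => h10 x, h7, ← h]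
    change _ = s.card * s.card * cc n s.card + (3 - s.card) * (3 - s.card) * cc n (s.card + 1)
    ring

theorem cc_three (n : ℕ) : cc n 3 = 9 ^ n := by
  induction n with
  | zero => rfl
  | succ n ih =>
    change 3 * 3 * cc n 3 + (3 - 3) * (3 - 3) * cc n (3 + 1) = _
    rw [ih, pow_succ]
    ring

theorem cc_two (n : ℕ) : 5 * cc n 2 = 9 ^ n + 4 * 4 ^ n := by
  induction n with
  | zero => rfl
  | succ n ih =>
    have h1 : cc (n + 1) 2 = 4 * cc n 2 + cc n 3 := by
      change 2 * 2 * cc n 2 + (3 - 2) * (3 - 2) * cc n 3 = _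
      ring
    rw [h1, cc_three, mul_add, ← mul_assoc, mul_comm 5 4, mul_assoc, ih]
    ring

theorem cc_one (n : ℕ) : 30 * cc n 1 + 5 = 3 * 9 ^ n + 32 * 4 ^ n := by
  induction n with
  | zero => rfl
  | succ n ih =>
    have h1 : cc (n + 1) 1 = cc n 1 + 4 * cc n 2 := by
      change 1 * 1 * cc n 1 + (3 - 1) * (3 - 1) * cc n 2 = _
      ring
    have h2 := cc_two n
    rw [h1, pow_succ, pow_succ]
    omega

theorem cc_zero (n : ℕ) : 10 * cc n 0 ≤ 9 ^ n + 24 * 4 ^ n := by
  cases n with
  | zero => decide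
  | succ n =>
    have h1 : cc (n + 1) 0 = 9 * cc n 1 := by
      change 0 * 0 * cc n 0 + (3 - 0) * (3 - 0) * cc n 1 = _
      ring
    have h2 := cc_one n
    rw [h1, pow_succ, pow_succ]
    omega

/-- if a pair is not agreeing then the numbers of symbols differ -/
theorem exists_of_not_agr (n : ℕ) : ∀ (s s' : Finset (Fin 3)) (p : Fin n → Fin 3 × Fin 3)
    (ω ω' : ℕ → Fin 3), (∀ i : Fin n, ω i = (p i).1 ∧ ω' i = (p i).2) → ¬ agr n s s' p →
    ∃ m, (s ∪ (Finset.range m).image ω).card ≠ (s' ∪ (Finset.range m).image ω').card := by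
  induction n with
  | zero =>
    intro s s' p ω ω' _ h
    refine ⟨0, ?_⟩
    have h' : ¬ s.card = s'.card := h
    simpa using h'
  | succ n ih =>
    intro s s' p ω ω' hp h
    by_cases h0 : s.card = s'.card
    · have h1 : ¬ agr n (insert (p 0).1 s) (insert (p 0).2 s') (fun i => p i.succ) :=
        fun h2 => h ⟨h0, h2⟩
      obtain ⟨m, hm⟩ := ih _ _ _ (fun k => ω (k + 1)) (fun k => ω' (k + 1)) (fun i => by
        have := hp i.succ
        simpa using this) h1
      refine ⟨m + 1, ?_⟩
      have h3 : ∀ (η : ℕ → Fin 3) (t : Finset (Fin 3)), t ∪ (Finset.range (m + 1)).image η =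
          insert (η 0) t ∪ (Finset.range m).image (fun k => η (k + 1)) := by
        intro η t
        ext q
        simp only [Finset.mem_union, Finset.mem_image, Finset.mem_range, Finset.mem_insert]
        constructor
        · rintro (h4 | ⟨i, hi, rfl⟩)
          · exact Or.inl (Or.inr h4)
          · cases i with
            | zero => exact Or.inl (Or.inl rfl)
            | succ i => exact Or.inr ⟨i, by omega, rfl⟩
        · rintro ((h4 | h4) | ⟨i, hi, rfl⟩)
          · exact Or.inr ⟨0, by omega, h4.symm⟩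
          · exact Or.inl h4
          · exact Or.inr ⟨i + 1, by omega, rfl⟩
      rw [h3, h3]
      have h4 := hp 0
      have h5 : ω 0 = (p 0).1 := by simpa using h4.1
      have h6 : ω' 0 = (p 0).2 := by simpa using h4.2
      rw [h5, h6]
      exact hm
    · refine ⟨0, ?_⟩
      simpa using h0

end Pool.Agent.H12S
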